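import Pool.Agent.MP_e76e0e_co.Final

/-!
# MP_e76e0e_co: the gaps above `n` are doubly exponentially small

All definitions (`IsMinor`, `FG`, `order`, `size`, `rho`, `ProperMinorClosed`, `B`, `next`, `gap`,
`gapStar`, `MinimalAbove`) are at the beginning of `Pool/Agent/MP_e76e0e_co/Basic.lean`.
-/

set_option autoImplicit false

namespace Pool.Agent.Results.MP_e76e0e_co.DoublyExponentialGaps

open Pool.Agent.MP_e76e0e_co

theorem result (n : ℕ) :
    -- for every real `x` with `n ≤ x < n + 1` there is a minor-minimal graph of density greater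
    -- than `x` on at least `2 ^ (2 ^ (n / 38 - 2))` and at least `(n !) ^ 2 / 10 ^ n` vertices; its
    -- density is an element of `B` close to `x`
    (∀ x : ℝ, (n : ℝ) ≤ x → x < n + 1 → ∃ G : FG, MinimalAbove x G ∧ rho G ∈ B ∧
      rho G ≤ x + 1 / order G ∧ 2 ^ (2 ^ (n / 38 - 2)) ≤ order G ∧
      n.factorial ^ 2 ≤ 10 ^ n * order G) ∧
    -- the supremum of the gaps above all reals `x ≥ n`
    gapStar n ≤ 1 / 2 ^ (2 ^ (n / 38 - 2)) ∧ gapStar n ≤ 10 ^ n / (n.factorial : ℝ) ^ 2 :=
  ⟨fun _ h1 h2 => by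
    obtain ⟨F, hF, h3, h4⟩ := exists_both h1 h2
    exact ⟨F, minimal_of_crit hF, rho_mem hF, rho_le hF, h3, h4⟩,
    gapStar_le_double n, gapStar_le_square n⟩

end Pool.Agent.Results.MP_e76e0e_co.DoublyExponentialGaps
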