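import Pool.Agent.MP_e76e0e_co.Basic

/-!
# MP_e76e0e_co: the gaps in one unit interval, and Q1 in terms of minor-minimal graphs

All definitions (`IsMinor`, `FG`, `order`, `size`, `rho`, `ProperMinorClosed`, `B`, `next`, `gap`,
`gapStar`, `MinimalAbove`, `arr`) are at the beginning of `Pool/Agent/MP_e76e0e_co/Basic.lean`.
-/

set_option autoImplicit false

namespace Pool.Agent.Results.MP_e76e0e_co.UnitInterval

open Pool.Agent.MP_e76e0e_co

theorem result :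
    -- every gap above a real `x ≥ 0` is at most `1 / ⌊e (⌊x⌋ + 1)!⌋`
    (∀ x : ℝ, 0 ≤ x → {b | b ∈ B ∧ x < b}.Nonempty ∧ 0 ≤ gap x ∧ gap x ≤ 1 / arr (⌊x⌋₊ + 1)) ∧
    -- the gaps decrease by a factor more than `x + 1` in a unit step
    (∀ x : ℝ, 0 ≤ x → gap (x + 1) ≤ gap x / (x + 1 + gap x)) ∧
    -- the supremum of the gaps above all `x ≥ n` is the supremum over `n ≤ x < n + 1`
    (∀ n : ℕ, IsLUB (gap '' Set.Ici (n : ℝ)) (gapStar n) ∧
      IsLUB (gap '' Set.Ico (n : ℝ) (n + 1)) (gapStar n) ∧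
      gapStar (n + 1) ≤ gapStar n / (n + 1)) ∧
    -- `1 / gap n` is the largest order of a minor-minimal graph with more than `n |V|` edges
    (∀ n : ℕ, IsGLB {r : ℝ | ∃ G : FG, MinimalAbove n G ∧ r = 1 / order G} (gap n)) ∧
    -- Q1 in terms of minor-minimal graphs and one unit interval
    ((∃ (C : ℝ) (N : ℕ), ∀ n : ℕ, N ≤ n → gapStar n ≤ C * gap n) ↔
      ∃ (C : ℝ) (N : ℕ), ∀ n : ℕ, N ≤ n → ∀ G : FG, MinimalAbove n G →
        ∀ x : ℝ, (n : ℝ) ≤ x → x < n + 1 → gap x ≤ C / order G) :=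
  ⟨fun _ hx => ⟨set_nonempty hx, gap_nonneg hx, gap_le_arr hx⟩,
    fun _ hx => gap_step hx,
    fun n => ⟨isLUB_Ici n, isLUB_Ico n, gapStar_succ n⟩, isGLB_gap, q1_iff⟩

end Pool.Agent.Results.MP_e76e0e_co.UnitInterval
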